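import Pool.Agent.P.MP_796fdb_co.Plun

set_option autoImplicit false

namespace Pool.Agent.P.MP_796fdb_co

open Set Pointwise Filter Topology MeasureTheory intervalIntegral

/-- the integral of `g` against the kernel representing `t ^ η` as a mixture of `min t u` -/
noncomputable def J (η a b : ℝ) (g : ℝ → ℝ) : ℝ := ∫ u in a..b, g u * (η * (1 - η) * u ^ (η - 2))

theorem ker_cont (η : ℝ) {a b : ℝ} (ha : 0 < a) (hb : 0 < b) :
    ContinuousOn (fun u : ℝ => η * (1 - η) * u ^ (η - 2)) (uIcc a b) :=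
  continuousOn_const.mul (continuousOn_id.rpow_const fun _ hu =>
    Or.inl ((lt_min ha hb).trans_le hu.1).ne')

theorem J_int (η : ℝ) {a b : ℝ} (ha : 0 < a) (hb : 0 < b) {g : ℝ → ℝ} (hg : Continuous g) :
    IntervalIntegrable (fun u => g u * (η * (1 - η) * u ^ (η - 2))) volume a b :=
  (hg.continuousOn.mul (ker_cont η ha hb)).intervalIntegrable

theorem J_add (η : ℝ) {a b : ℝ} (ha : 0 < a) (hb : 0 < b) {f g : ℝ → ℝ} (hf : Continuous f)
    (hg : Continuous g) (c : ℝ) : J η a b (fun u => f u + c * g u) = J η a b f + c * J η a b g := by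
  simp only [J]
  rw [← intervalIntegral.integral_const_mul, ← intervalIntegral.integral_add (J_int η ha hb hf) ((J_int η ha hb hg).const_mul c)]
  congr 1; ext; ring

theorem J_nonpos {η a b : ℝ} (h0 : 0 < η) (h1 : η < 1) (ha : 0 < a) (hab : a ≤ b) {g : ℝ → ℝ}
    (hg : ∀ u > 0, g u ≤ 0) : J η a b g ≤ 0 := by
  rw [J, ← neg_nonneg, ← intervalIntegral.integral_neg]
  refine integral_nonneg hab fun u hu => neg_nonneg.mpr (mul_nonpos_of_nonpos_of_nonneg
    (hg u (ha.trans_le hu.1)) ?_)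
  have := ha.trans_le hu.1
  have := sub_pos.mpr h1
  positivity

theorem J_min {η a b t : ℝ} (h0 : 0 < η) (h1 : η < 1) (ha : 0 < a) (hab : a ≤ b) (ht : 0 ≤ t) :
    J η a b (fun u => min t u) ≤ t ^ η := by
  rcases ht.eq_or_lt with rfl | ht
  · exact (J_nonpos h0 h1 ha hab fun u _ => min_le_left _ _).trans (by positivity)
  have h2 := sub_pos.mpr h1
  have hb := ha.trans_le hab
  have c : Continuous fun u : ℝ => min t u := by fun_prop
  have a' : 0 < min a t := lt_min ha ht
  have b' : 0 < max b t := lt_max_of_lt_left hb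
  have e1 : J η (min a t) t (fun u => min t u) = (1 - η) * (t ^ η - min a t ^ η) := by
    rw [J, integral_congr (g := fun u => η * (1 - η) * u ^ (η - 1)),
      intervalIntegral.integral_const_mul,
      integral_rpow (Or.inl (by linarith)), sub_add_cancel]
    · field_simp
    intro u hu
    rw [uIcc_of_le (min_le_right _ _)] at hu
    have := a'.trans_le hu.1
    simp only [min_eq_right hu.2]
    rw [show η - 1 = η - 2 + 1 by ring, Real.rpow_add_one this.ne']
    ring
  have e2 : J η t (max b t) (fun u => min t u) = η * (t ^ η - t * max b t ^ (η - 1)) := by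
    rw [J, integral_congr (g := fun u => t * η * (1 - η) * u ^ (η - 2)),
      intervalIntegral.integral_const_mul,
      integral_rpow (Or.inr ⟨by linarith, notMem_uIcc_of_lt ht b'⟩),
      show η - 2 + 1 = η - 1 by ring, Real.rpow_sub_one ht.ne']
    · have : η - 1 ≠ 0 := by linarith
      field_simp
      ring
    intro u hu
    rw [uIcc_of_le (le_max_right _ _)] at hu
    simp only [min_eq_left hu.1]
    ring
  have e3 : J η a b (fun u => min t u) ≤ J η (min a t) (max b t) (fun u => min t u) :=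
    integral_mono_interval (min_le_left _ _) hab (le_max_left _ _)
      ((ae_restrict_iff' measurableSet_Ioc).mpr (Eventually.of_forall fun u hu => by
        have := a'.trans hu.1
        have := lt_min ht this
        simp only [Pi.zero_apply]
        positivity)) (J_int η a' b' c)
  have e4 := integral_add_adjacent_intervals (J_int η a' ht c) (J_int η ht b' c)
  have p1 : 0 ≤ (1 - η) * min a t ^ η := by positivity
  have p2 : 0 ≤ η * (t * max b t ^ (η - 1)) := by positivity
  simp only [J] at e1 e2 e3 ⊢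
  nlinarith

theorem J_exp {η a b c : ℝ} (h0 : 0 < η) (ha : 0 < a) (hab : a ≤ b) (hc : 0 < c) :
    (∫ u in a..b, η * c * (u ^ (η - 1) * Real.exp (-(c * u)))) - η * b ^ (η - 1) ≤
      J η a b (fun u => 1 - Real.exp (-(c * u))) := by
  have hb := ha.trans_le hab
  have i1 := J_int η ha hb (g := fun u => 1 - Real.exp (-(c * u))) (by fun_prop)
  have i2 : IntervalIntegrable (fun u : ℝ => η * c * (u ^ (η - 1) * Real.exp (-(c * u))))
      volume a b := (continuousOn_const.mul ((continuousOn_id.rpow_const fun _ hu =>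
    Or.inl ((lt_min ha hb).trans_le hu.1).ne').mul (by fun_prop))).intervalIntegrable
  have := integral_eq_sub_of_hasDerivAt
    (f := fun u => η * ((1 - Real.exp (-(c * u))) * u ^ (η - 1))) (fun u hu => by
      have hu0 := (lt_min ha hb).trans_le hu.1
      have d1 := ((hasDerivAt_id u).const_mul c).neg.exp.const_sub 1
      refine ((d1.mul (Real.hasDerivAt_rpow_const (p := η - 1)
        (Or.inl hu0.ne'))).const_mul η).congr_deriv ?_
      simp only [id, Pi.neg_apply]
      rw [show η - 1 - 1 = η - 2 by ring]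
      ring) (i2.sub i1)
  rw [intervalIntegral.integral_sub i2 i1] at this
  have k : ∀ u, 0 < u → 0 ≤ 1 - Real.exp (-(c * u)) := fun u hu =>
    sub_nonneg.mpr (Real.exp_le_one_iff.mpr (neg_nonpos.mpr (by positivity)))
  have p1 : 0 ≤ η * ((1 - Real.exp (-(c * a))) * a ^ (η - 1)) := by
    have := k a ha; positivity
  have p2 : 0 ≤ η * (Real.exp (-(c * b)) * b ^ (η - 1)) := by positivity
  rw [J]
  nlinarith

theorem J_lim {η c s : ℝ} (h0 : 0 < η) (h1 : η < 1) (hc : 0 < c)
    (h : ∀ a b ε, 0 < a → a ≤ b → 0 < ε →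
      J η a b (fun u => 1 - Real.exp (-(c * u)) + -ε * (1 + c * u)) ≤ s) :
    Real.Gamma (1 + η) * c ^ (1 - η) ≤ s := by
  have k1 : ∀ a b, 0 < a → a ≤ b → J η a b (fun u => 1 - Real.exp (-(c * u))) ≤ s := by
    intro a b ha hab
    have : Tendsto (fun ε : ℝ => J η a b (fun u => 1 - Real.exp (-(c * u))) +
        -ε * J η a b (fun u => 1 + c * u)) (𝓝[>] 0) (𝓝 (_ + -0 * _)) :=
      tendsto_nhdsWithin_of_tendsto_nhds (Continuous.tendsto (by fun_prop) 0)
    rw [neg_zero, zero_mul, add_zero] at this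
    refine le_of_tendsto this (eventually_nhdsWithin_of_forall fun ε hε => ?_)
    rw [← J_add η ha (ha.trans_le hab) (by fun_prop) (by fun_prop)]
    exact h a b ε ha hab hε
  have i1 : IntegrableOn (fun u : ℝ => η * c * (u ^ (η - 1) * Real.exp (-(c * u)))) (Ioi 0) := by
    refine Integrable.const_mul ?_ _
    simpa [IntegrableOn] using integrableOn_rpow_mul_exp_neg_mul_rpow (s := η - 1) (p := 1)
      (by linarith) one_pos hc
  have u1 : ⋃ n : ℕ, Ioc (1 / (n + 1 : ℝ)) (n + 1) = Ioi 0 := by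
    ext x
    simp only [mem_iUnion, mem_Ioc, mem_Ioi]
    refine ⟨fun ⟨n, hn, _⟩ => lt_trans (by positivity) hn, fun hx => ?_⟩
    obtain ⟨n, hn⟩ := exists_nat_gt (max x (1 / x))
    refine ⟨n, ?_, by linarith [le_max_left x (1 / x)]⟩
    rw [one_div_lt (by positivity) hx]
    linarith [le_max_right x (1 / x)]
  have t1 := tendsto_setIntegral_of_monotone (μ := volume)
    (s := fun n : ℕ => Ioc (1 / (n + 1 : ℝ)) (n + 1)) (fun _ => measurableSet_Ioc)
    (fun n m hnm => Ioc_subset_Ioc (by gcongr) (by gcongr)) (u1.symm ▸ i1)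
  rw [u1, MeasureTheory.integral_const_mul, Real.integral_rpow_mul_exp_neg_mul_Ioi h0 hc] at t1
  have t2 : Tendsto (fun n : ℕ => η * (n + 1 : ℝ) ^ (η - 1)) atTop (𝓝 (η * 0)) := by
    refine Tendsto.const_mul _ ?_
    rw [show η - 1 = -(1 - η) by ring]
    exact (tendsto_rpow_neg_atTop (sub_pos.mpr h1)).comp
      (tendsto_atTop_add_const_right _ _ tendsto_natCast_atTop_atTop)
  refine le_trans (le_of_eq ?_) (le_of_tendsto' (t1.sub t2) fun n => ?_)
  · rw [add_comm, Real.Gamma_add_one h0.ne', Real.rpow_sub hc, Real.rpow_one, one_div,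
      Real.inv_rpow hc.le]
    ring
  · have hab : 1 / (n + 1 : ℝ) ≤ n + 1 := by
      rw [div_le_iff₀ (by positivity)]; nlinarith [Nat.cast_nonneg (α := ℝ) n]
    rw [← integral_of_le hab]
    exact (J_exp h0 (by positivity) hab hc).trans (k1 _ _ (by positivity) hab)

variable {G : Type*} [AddCancelCommMonoid G]

theorem chain {A B R : Set G} (hA : A.Finite) (hB : B.Finite) (hR : Rᶜ + B ⊆ Rᶜ) {j k : ℕ}
    (hj : 0 < j) (hk : j < k) {a b : ℝ} (ha : 0 < a) (hab : a ≤ b) (N : ℕ) :
    ∀ Y ⊆ A, (A \ Y).ncard = N → ∀ g : ℝ → ℝ, Continuous g →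
      (∀ u > 0, ∀ Z, Y ⊆ Z → Z ⊆ A → g u ≤ ((Z + k • B) ∩ R).ncard - ((Y + k • B) ∩ R).ncard +
        u * (A \ Z).ncard) →
      J (j / k) a b g ≤ ((A + j • B) ∩ R).ncard - ((Y + j • B) ∩ R).ncard := by
  have k0 : (0 : ℝ) < k := by exact_mod_cast hj.trans hk
  have h0 : (0 : ℝ) < j / k := by positivity
  have h1 : (j / k : ℝ) < 1 := (div_lt_one k0).mpr (by exact_mod_cast hk)
  induction N using Nat.strong_induction_on with
  | _ N ih =>
  intro Y hY hN g hg h
  by_cases hAY : A ⊆ Y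
  · obtain rfl := hY.antisymm hAY
    rw [sub_self]
    exact J_nonpos h0 h1 ha hab fun u hu => by simpa using h u hu Y le_rfl le_rfl
  obtain ⟨Y', ⟨y1, y2⟩, hmin⟩ := exists_min_image {Z | Y ⊂ Z ∧ Z ⊆ A} (fun Z =>
    ((((Z + k • B) ∩ R).ncard : ℝ) - ((Y + k • B) ∩ R).ncard) / (Z \ Y).ncard)
    (hA.finite_subsets.subset fun _ h => h.2) ⟨A, ⟨hY, hAY⟩, le_rfl⟩
  have pos : ∀ Z, Y ⊂ Z → Z ⊆ A → (0 : ℝ) < (Z \ Y).ncard := fun Z z1 z2 => by
    exact_mod_cast (ncard_pos (hA.subset z2).diff).mpr (diff_nonempty.mpr z1.2)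
  have res : ∀ (n : ℕ) (Z : Set G), Z ⊆ A → (((Z + n • B) \ (Y + n • B ∪ Rᶜ)).ncard : ℝ) =
      ((Y ∪ Z + n • B) ∩ R).ncard - ((Y + n • B) ∩ R).ncard := fun n Z hZ => by
    rw [eq_sub_iff_add_eq, ← Nat.cast_add, ← ncard_diff_add_ncard_of_subset
      (inter_subset_inter_left R (add_subset_add_right (subset_union_left (t := Z))))
      ((((hA.subset hY).union (hA.subset hZ)).add (finite_nsmul hB n)).inter_of_left _), union_add]
    congr 3
    ext x
    simp only [mem_diff, mem_union, mem_compl_iff, mem_inter_iff]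
    tauto
  set ν := ((((Y' + k • B) ∩ R).ncard : ℝ) - ((Y + k • B) ∩ R).ncard) / (Y' \ Y).ncard with hν
  have p1 := pos Y' y1 y2
  have e1 : ν * (Y' \ Y).ncard = ((Y' + k • B) ∩ R).ncard - ((Y + k • B) ∩ R).ncard :=
    div_mul_cancel₀ _ p1.ne'
  have m1 : ∀ Z, Y ⊆ Z → Z ⊆ A →
      ν * (Z \ Y).ncard ≤ ((Z + k • B) ∩ R).ncard - ((Y + k • B) ∩ R).ncard := fun Z z1 z2 => by
    rcases z1.eq_or_ssubset with rfl | z1
    · simp
    · exact (le_div_iff₀ (pos Z z1 z2)).mp (hmin Z ⟨z1, z2⟩)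
  have r1 := res j (Y' \ Y) (diff_subset.trans y2)
  have r2 := res k (Y' \ Y) (diff_subset.trans y2)
  rw [union_diff_cancel y1.1] at r1 r2
  have ν0 : 0 ≤ ν := div_nonneg (r2 ▸ Nat.cast_nonneg _) p1.le
  have pl : ν ^ (j / k : ℝ) * (Y' \ Y).ncard ≤
      ((Y' + j • B) ∩ R).ncard - ((Y + j • B) ∩ R).ncard := by
    rw [← r1]
    rcases ν0.eq_or_lt with e | ν0
    · rw [← e, Real.zero_rpow h0.ne', zero_mul]; positivity
    have := plun (X := Y' \ Y) (hA.subset y2).diff hB (P := fun n => Y + n • B ∪ Rᶜ) (fun n => by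
      rw [union_add, add_assoc, succ_nsmul]
      exact union_subset_union_right _ hR) hj hk (C := ν ^ (k : ℝ)⁻¹) (by positivity) fun Z hZ => by
        have z2 := hZ.trans (diff_subset.trans y2)
        have := m1 (Y ∪ Z) subset_union_left (union_subset hY z2)
        rw [union_diff_cancel_left fun x hx => (hZ hx.2).2 hx.1] at this
        rwa [Real.rpow_inv_natCast_pow ν0.le (hj.trans hk).ne', res k Z z2]
    rwa [← Real.rpow_natCast, ← Real.rpow_mul ν0.le, inv_mul_eq_div] at this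
  have cd : ∀ {X Y Z : Set G}, X ⊆ Y → Y ⊆ Z → Z ⊆ A →
      ((Z \ X).ncard : ℝ) = (Z \ Y).ncard + (Y \ X).ncard := fun {X Y Z} h1 h2 h3 => by
    have a1 := ncard_diff_add_ncard_of_subset h1 (hA.subset (h2.trans h3))
    have a2 := ncard_diff_add_ncard_of_subset h2 (hA.subset h3)
    have a3 := ncard_diff_add_ncard_of_subset (h1.trans h2) (hA.subset h3)
    exact_mod_cast (by omega : _ = _ + _)
  have c1 := cd y1.1 y2 le_rfl
  have c2 : Continuous fun u : ℝ => min ν u := by fun_prop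
  have := ih _ (by rw [← hN]; exact_mod_cast (by linarith : ((A \ Y').ncard : ℝ) < (A \ Y).ncard))
    Y' y2 rfl (fun u => g u + -((Y' \ Y).ncard : ℝ) * min ν u) (by fun_prop) fun u hu Z z1 z2 => by
      rcases le_total ν u with h2 | h2
      · rw [min_eq_left h2]
        linarith [h u hu Z (y1.1.trans z1) z2]
      · rw [min_eq_right h2]
        have b1 := h u hu Y le_rfl hY
        have b2 := m1 Z (y1.1.trans z1) z2
        rw [cd y1.1 z1 z2] at b2
        rw [c1, cd z1 z2 le_rfl] at b1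
        nlinarith [mul_le_mul_of_nonneg_right h2 (Nat.cast_nonneg (α := ℝ) (Z \ Y').ncard)]
  rw [J_add _ ha (ha.trans_le hab) hg c2] at this
  nlinarith [mul_le_mul_of_nonneg_left (J_min h0 h1 ha hab ν0) p1.le]

end Pool.Agent.P.MP_796fdb_co
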