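import Mathlib

set_option autoImplicit false

namespace Pool.Agent.P.MP_796fdb_co

open Filter

/-- `R(W, H) = ([0, W] × [0, H]) ∩ ℕ²` -/
def rect (W H : ℕ) : Set (ℕ × ℕ) := {p | p.1 ≤ W ∧ p.2 ≤ H}

/-- `|A ∩ R(W, H)| / ((W + 1) (H + 1))` -/
noncomputable def ratio (A : Set (ℕ × ℕ)) (W H : ℕ) : ℝ :=
  (A ∩ rect W H).ncard / ((W + 1) * (H + 1))

/-- the lower rectangular density: the infimum over all sequences `W j → ∞`, `H j → ∞` of the
lower limit of the ratios -/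
noncomputable def lowerRect (A : Set (ℕ × ℕ)) : ℝ :=
  sInf {l | ∃ W H : ℕ → ℕ, Tendsto W atTop atTop ∧ Tendsto H atTop atTop ∧
    l = liminf (fun j => ratio A (W j) (H j)) atTop}

end Pool.Agent.P.MP_796fdb_co
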