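import Pool.Agent.P.MP_796fdb_co.Geom
import Pool.Agent.P.MP_796fdb_co.Defs

set_option autoImplicit false

namespace Pool.Agent.P.MP_796fdb_co

open Set Pointwise Filter Topology

theorem rect_eq (W H : ℕ) : rect W H = box (W + 1) (H + 1) := by
  ext; simp [rect, box, Nat.lt_succ_iff]

theorem ratio_nonneg (A : Set (ℕ × ℕ)) (W H : ℕ) : 0 ≤ ratio A W H := by
  unfold ratio; positivity

theorem ratio_le (A : Set (ℕ × ℕ)) (W H : ℕ) : ratio A W H ≤ 1 := by
  rw [ratio, div_le_one (by positivity), rect_eq]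
  have := ncard_le_ncard (inter_subset_right (s := A)) (box_fin (W + 1) (H + 1))
  rw [box, ncard_prod, ncard_Iio_nat, ncard_Iio_nat] at this
  exact_mod_cast this

theorem le_lowerRect {A : Set (ℕ × ℕ)} {s : ℝ} {N : ℕ} (h : ∀ W ≥ N, ∀ H ≥ N, s ≤ ratio A W H) :
    s ≤ lowerRect A := by
  refine le_csInf ⟨_, id, id, tendsto_id, tendsto_id, rfl⟩ ?_
  rintro _ ⟨W, H, hW, hH, rfl⟩
  refine le_liminf_of_le (isCoboundedUnder_ge_of_le _ fun j => ratio_le A _ _) ?_
  filter_upwards [hW.eventually_ge_atTop N, hH.eventually_ge_atTop N] with j h1 h2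
  exact h _ h1 _ h2

theorem lowerRect_nonneg (A : Set (ℕ × ℕ)) : 0 ≤ lowerRect A :=
  le_lowerRect (N := 0) fun W _ H _ => ratio_nonneg A W H

theorem of_lt {A : Set (ℕ × ℕ)} {α : ℝ} (h0 : 0 ≤ α) (h : α < lowerRect A) :
    ∃ L : ℕ, ∀ L' : ℝ, L ≤ L' → ∀ a b : ℕ, α * (a * b - L' * (a + b)) ≤ (A ∩ box a b).ncard := by
  obtain ⟨N, hN⟩ : ∃ N : ℕ, ∀ W ≥ N, ∀ H ≥ N, α ≤ ratio A W H := by
    by_contra hc
    push Not at hc
    choose W hW H hH hr using hc
    refine not_le.mpr h (csInf_le_of_le ⟨0, ?_⟩ ⟨W, H, tendsto_atTop_mono hW tendsto_id,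
      tendsto_atTop_mono hH tendsto_id, rfl⟩ (liminf_le_of_frequently_le
        (Eventually.of_forall fun j => (hr j).le).frequently
        (isBoundedUnder_of ⟨0, fun j => ratio_nonneg A _ _⟩)))
    rintro _ ⟨W, H, -, -, rfl⟩
    exact le_liminf_of_le (isCoboundedUnder_ge_of_le _ fun j => ratio_le A _ _)
      (Eventually.of_forall fun j => ratio_nonneg A _ _)
  refine ⟨N, fun L hL a b => ?_⟩
  have a0 : (0 : ℝ) ≤ a := Nat.cast_nonneg _
  have b0 : (0 : ℝ) ≤ b := Nat.cast_nonneg _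
  have L0 : 0 ≤ L := (Nat.cast_nonneg _).trans hL
  by_cases ha : a ≤ N
  · have : (a : ℝ) ≤ L := le_trans (by exact_mod_cast ha) hL
    exact (mul_nonpos_of_nonneg_of_nonpos h0 (by nlinarith)).trans (Nat.cast_nonneg _)
  by_cases hb : b ≤ N
  · have : (b : ℝ) ≤ L := le_trans (by exact_mod_cast hb) hL
    exact (mul_nonpos_of_nonneg_of_nonpos h0 (by nlinarith)).trans (Nat.cast_nonneg _)
  obtain ⟨W, rfl⟩ : ∃ W, a = W + 1 := ⟨a - 1, by omega⟩
  obtain ⟨H, rfl⟩ : ∃ H, b = H + 1 := ⟨b - 1, by omega⟩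
  have := hN W (by omega) H (by omega)
  rw [ratio, le_div_iff₀ (by positivity), rect_eq] at this
  push_cast at *
  nlinarith [mul_nonneg h0 (mul_nonneg L0 (add_nonneg a0 b0))]

theorem box_lower {a b : ℕ} {p q : ℕ × ℕ} (h : p + q ∈ box a b) : p ∈ box a b ∧ q ∈ box a b := by
  simp [box] at h ⊢; omega

theorem nsmul_box (B : Set (ℕ × ℕ)) {a b : ℕ} (n : ℕ) :
    n • B ∩ box a b ⊆ n • (B ∩ box a b) := by
  induction n with
  | zero => exact inter_subset_left
  | succ n ih =>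
    rw [succ_nsmul, succ_nsmul]
    rintro _ ⟨⟨p, hp, q, hq, rfl⟩, h⟩
    exact add_mem_add (ih ⟨hp, (box_lower h).1⟩) ⟨hq, (box_lower h).2⟩

theorem main {A B : Set (ℕ × ℕ)} {j k : ℕ} (hj : 0 < j) (hk : j < k) {α γ : ℝ} (hα : 0 < α)
    (hγ : 0 < γ) (h1 : α < lowerRect A) (h2 : γ < lowerRect (k • B)) :
    Real.Gamma (1 + j / k) * α ^ (1 - j / k : ℝ) * γ ^ (j / k : ℝ) ≤ lowerRect (A + j • B) := by
  have k0 : (0 : ℝ) < k := by exact_mod_cast hj.trans hk
  have e0 : (0 : ℝ) < j / k := by positivity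
  have e1 : (j / k : ℝ) < 1 := (div_lt_one k0).mpr (by exact_mod_cast hk)
  obtain ⟨L1, hA⟩ := of_lt hα.le h1
  obtain ⟨L2, hS⟩ := of_lt hγ.le h2
  have := J_lim (s := lowerRect (A + j • B) / γ) e0 e1 (div_pos hα hγ) fun a b ε ha hab hε => by
    obtain ⟨N, hN⟩ := geom (L := max L1 L2) hα hγ (by positivity) hε (hA _ (le_max_left _ _))
      (hS _ (le_max_right _ _))
    rw [le_div_iff₀ hγ]
    refine le_lowerRect (N := N) fun W hW H hH => ?_
    have f := box_fin (W + 1) (H + 1)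
    have := chain (A := A ∩ box (W + 1) (H + 1)) (B := B ∩ box (W + 1) (H + 1))
      (R := box (W + 1) (H + 1)) (f.inter_of_right _) (f.inter_of_right _)
      (by rintro _ ⟨p, hp, q, -, rfl⟩ h; exact hp (box_lower h).1) hj hk ha hab _ ∅
      (empty_subset _) rfl (fun u => 0 + γ * ((W + 1) * (H + 1)) *
        (1 - Real.exp (-(α / γ * u)) + -ε * (1 + α / γ * u))) (by fun_prop) fun u hu Z _ _ => by
        have k1 := hN (W + 1) (by omega) (H + 1) (by omega) u hu Z
        have k2 : (((Z + k • B) ∩ box (W + 1) (H + 1)).ncard : ℝ) ≤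
            ((Z + k • (B ∩ box (W + 1) (H + 1))) ∩ box (W + 1) (H + 1)).ncard := by
          refine Nat.cast_le.mpr (ncard_le_ncard ?_ (f.inter_of_right _))
          rintro _ ⟨⟨p, hp, q, hq, rfl⟩, h⟩
          exact ⟨add_mem_add hp (nsmul_box B k ⟨hq, (box_lower h).2⟩), h⟩
        push_cast at k1
        simp only [empty_add, empty_inter, ncard_empty, Nat.cast_zero]
        linarith
    rw [J_add _ ha (ha.trans_le hab) (by fun_prop) (by fun_prop)] at this
    have k3 : (((A ∩ box (W + 1) (H + 1) + j • (B ∩ box (W + 1) (H + 1))) ∩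
        box (W + 1) (H + 1)).ncard : ℝ) ≤ ((A + j • B) ∩ box (W + 1) (H + 1)).ncard :=
      Nat.cast_le.mpr (ncard_le_ncard (inter_subset_inter_left _ (add_subset_add inter_subset_left
        (nsmul_subset_nsmul_left inter_subset_left))) (f.inter_of_right _))
    have k4 : J (j / k) a b (fun _ => 0) = 0 := by simp [J]
    rw [ratio, le_div_iff₀ (by positivity), rect_eq]
    simp only [empty_add, empty_inter, ncard_empty, Nat.cast_zero] at this
    linarith
  rw [le_div_iff₀ hγ, Real.div_rpow hα.le hγ.le, Real.rpow_sub hγ, Real.rpow_one] at this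
  refine le_trans (le_of_eq ?_) this
  have := Real.rpow_pos_of_pos hγ (j / k)
  field_simp

end Pool.Agent.P.MP_796fdb_co
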