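import Pool.Agent.P.MP_796fdb_co.Chain

set_option autoImplicit false

namespace Pool.Agent.P.MP_796fdb_co

open Set Pointwise Filter Topology

theorem harm {i : ℕ} (hi : 0 < i) (n : ℕ) :
    ∑ l ∈ Finset.range n, 1 / ((i + 1 + l : ℕ) : ℝ) ≤ Real.log (i + n) - Real.log i := by
  induction n with
  | zero => simp
  | succ n ih =>
    have p : (0 : ℝ) < i + n := by positivity
    have := Real.one_sub_inv_le_log_of_pos (x := (i + n + 1) / (i + n)) (by positivity)
    rw [Real.log_div (by positivity) p.ne'] at this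
    have e : 1 - ((i + n + 1 : ℝ) / (i + n))⁻¹ = 1 / ((i + 1 + n : ℕ) : ℝ) := by
      push_cast; field_simp; ring
    rw [Finset.sum_range_succ]
    push_cast at *
    rw [← add_assoc]
    linarith

theorem sum_min {y : ℕ → ℝ} {P M v : ℝ} {n : ℕ} (hn : 0 < n) (hP : 0 ≤ P) (hM : 0 ≤ M)
    (hv : 0 ≤ v) (h1 : ∀ l < n, y l ≤ P) (h2 : ∀ l < n, y l * l ≤ M) :
    ∑ l ∈ Finset.range n, y l ≤ P * (Real.exp (-v) * n + 2) + M * v := by
  have t0 : 0 < Real.exp (-v) * n := by positivity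
  have i0 := Nat.ceil_pos.mpr t0
  have i1 := Nat.ceil_lt_add_one t0.le
  have i2 := Nat.le_ceil (Real.exp (-v) * n)
  set i := ⌈Real.exp (-v) * n⌉₊
  have s : ∀ m ≤ n, m ≤ i + 1 → ∑ l ∈ Finset.range m, y l ≤ P * (Real.exp (-v) * n + 2) := by
    intro m k1 k2
    have : (m : ℝ) ≤ i + 1 := by exact_mod_cast k2
    refine (Finset.sum_le_card_nsmul _ _ P fun l hl => h1 l
      ((Finset.mem_range.mp hl).trans_le k1)).trans ?_
    rw [Finset.card_range, nsmul_eq_mul, mul_comm]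
    gcongr
    linarith
  rcases le_total n (i + 1) with h | h
  · exact (s n le_rfl h).trans (le_add_of_nonneg_right (by positivity))
  obtain ⟨m, hm⟩ := Nat.exists_eq_add_of_le h
  have e := Finset.sum_range_add y (i + 1) m
  rw [← hm] at e
  rw [e]
  refine add_le_add (s _ h le_rfl) ((Finset.sum_le_sum fun l hl => (?_ : _ ≤ M * (1 / ((i + 1 + l :
    ℕ) : ℝ)))).trans ?_)
  · rw [mul_one_div, le_div_iff₀ (by positivity)]
    exact h2 _ (by have := Finset.mem_range.mp hl; omega)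
  · rw [← Finset.mul_sum]
    refine mul_le_mul_of_nonneg_left ((harm i0 m).trans ?_) hM
    have a1 := Real.log_le_log t0 i2
    rw [Real.log_mul (by positivity) (by positivity), Real.log_exp] at a1
    have a2 : Real.log (i + m) ≤ Real.log n :=
      Real.log_le_log (by positivity) (by exact_mod_cast (by omega : i + m ≤ n))
    linarith

/-- the box `[0, a) × [0, b)` -/
def box (a b : ℕ) : Set (ℕ × ℕ) := Iio a ×ˢ Iio b

theorem box_fin (a b : ℕ) : (box a b).Finite := (finite_Iio a).prod (finite_Iio b)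

theorem stair {S Z : Set (ℕ × ℕ)} {γ L : ℝ} (hγ : 0 ≤ γ) (hL : 0 ≤ L)
    (hS : ∀ a b : ℕ, γ * (a * b - L * (a + b)) ≤ (S ∩ box a b).ncard) {a b d : ℕ} {x : ℕ → ℕ}
    (h0 : x 0 = a) (hx : Antitone x)
    (hz : ∀ i, x i = a ∨ ∃ z ∈ Z, z.1 = x i ∧ z.2 < i * d) (i : ℕ) : i * d ≤ b →
    γ * ((a - x i) * (b - i * d) + d * ∑ l ∈ Finset.range i, (a - x l : ℝ) - L * (a - x i) -
      i * L * b) ≤ ((Z + S) ∩ box a b ∩ {p | x i ≤ p.1}).ncard := by
  induction i with
  | zero => intro; simp [h0]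
  | succ i ih =>
    intro hi
    have i1 := ih (le_trans (by gcongr; omega) hi)
    have x1 : x (i + 1) ≤ x i := hx (Nat.le_succ i)
    have x2 : x i ≤ a := h0 ▸ hx (Nat.zero_le i)
    have fin : ((Z + S) ∩ box a b ∩ {p | x (i + 1) ≤ p.1}).Finite :=
      ((box_fin a b).inter_of_right _).inter_of_left _
    have sub : (Z + S) ∩ box a b ∩ {p | x i ≤ p.1} ⊆ (Z + S) ∩ box a b ∩ {p | x (i + 1) ≤ p.1} :=
      fun p hp => ⟨hp.1, x1.trans hp.2⟩
    rw [Finset.sum_range_succ]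
    push_cast
    rcases hz (i + 1) with e | ⟨z, z1, z2, z3⟩
    · have : (((Z + S) ∩ box a b ∩ {p | x i ≤ p.1}).ncard : ℝ) ≤ _ :=
        Nat.cast_le.mpr (ncard_le_ncard sub fin)
      rw [show x i = a by omega] at i1 this ⊢
      rw [e] at this ⊢
      nlinarith [mul_nonneg hγ (mul_nonneg hL (Nat.cast_nonneg (α := ℝ) b))]
    have h1 := hS (x i - x (i + 1)) (b - z.2)
    have h2 : ((Z + S) ∩ box a b ∩ {p | x i ≤ p.1}).ncard + (S ∩ box (x i - x (i + 1))
        (b - z.2)).ncard ≤ ((Z + S) ∩ box a b ∩ {p | x (i + 1) ≤ p.1}).ncard := by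
      rw [← ncard_image_of_injective (S ∩ box _ _) (add_right_injective z),
        ← ncard_union_eq _ (fin.subset sub) (((box_fin _ _).inter_of_right _).image _)]
      · refine ncard_le_ncard (union_subset sub ?_) fin
        rintro _ ⟨s, ⟨s1, s2, s3⟩, rfl⟩
        simp only [mem_Iio] at s2 s3
        refine ⟨⟨add_mem_add z1 s1, ?_, ?_⟩, ?_⟩ <;> simp <;> omega
      · refine disjoint_left.mpr ?_
        rintro _ hp ⟨s, ⟨s1, s2, s3⟩, rfl⟩
        have := hp.2
        simp only [mem_Iio] at s2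
        simp at this
        omega
    have h3 : (((Z + S) ∩ box a b ∩ {p | x i ≤ p.1}).ncard : ℝ) + (S ∩ box (x i - x (i + 1))
        (b - z.2)).ncard ≤ ((Z + S) ∩ box a b ∩ {p | x (i + 1) ≤ p.1}).ncard := by exact_mod_cast h2
    rw [Nat.cast_sub x1, Nat.cast_sub (z3.le.trans hi)] at h1
    have a1 : (z.2 : ℝ) ≤ (i + 1) * d := by exact_mod_cast z3.le
    have a2 : (0 : ℝ) ≤ x i - x (i + 1) := sub_nonneg.mpr (by exact_mod_cast x1)
    nlinarith [mul_nonneg hγ (mul_nonneg a2 (sub_nonneg.mpr a1)),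
      mul_nonneg hγ (mul_nonneg hL (Nat.cast_nonneg (α := ℝ) z.2))]

theorem geom {A S : Set (ℕ × ℕ)} {α γ L ε : ℝ} (hα : 0 < α) (hγ : 0 < γ) (hL : 0 ≤ L) (hε : 0 < ε)
    (hA : ∀ a b : ℕ, α * (a * b - L * (a + b)) ≤ (A ∩ box a b).ncard)
    (hS : ∀ a b : ℕ, γ * (a * b - L * (a + b)) ≤ (S ∩ box a b).ncard) :
    ∃ N : ℕ, ∀ a ≥ N, ∀ b ≥ N, ∀ u > 0, ∀ Z : Set (ℕ × ℕ),
      γ * (a * b) * (1 - Real.exp (-(α / γ * u)) + -ε * (1 + α / γ * u)) ≤
        ((Z + S) ∩ box a b).ncard + u * ((A ∩ box a b) \ Z).ncard := by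
  obtain ⟨n, hn⟩ := exists_nat_gt (8 / ε)
  have n0 : (0 : ℝ) < n := lt_trans (by positivity) hn
  have n1 : (1 : ℝ) ≤ n := by exact_mod_cast Nat.one_le_iff_ne_zero.mpr (by rintro rfl; simp at n0)
  obtain ⟨N, hN⟩ := exists_nat_gt (4 * (n + n * L) / ε)
  refine ⟨N, fun a ha b hb u hu Z => ?_⟩
  rw [div_lt_iff₀ hε] at hn hN
  have ha' : (N : ℝ) ≤ a := by exact_mod_cast ha
  have hb' : (N : ℝ) ≤ b := by exact_mod_cast hb
  have a0 : (0 : ℝ) ≤ a := Nat.cast_nonneg _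
  have b0 : (0 : ℝ) ≤ b := Nat.cast_nonneg _
  set d := b / n with hd
  let D : ℕ → Set ℕ := fun i => {p | p = a ∨ ∃ z ∈ Z, z.1 = p ∧ z.2 < i * d}
  let x : ℕ → ℕ := fun i => sInf (D i)
  have x1 : ∀ i, x i ≤ a := fun i => Nat.sInf_le (Or.inl rfl)
  have x2 : ∀ i, x i ∈ D i := fun i => Nat.sInf_mem ⟨a, Or.inl rfl⟩
  have x3 : Antitone x := fun i j hij => Nat.sInf_le ((x2 i).imp_right
    fun ⟨z, z1, z2, z3⟩ => ⟨z, z1, z2, z3.trans_le (by gcongr)⟩)
  have d1 : n * d ≤ b := Nat.mul_div_le b n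
  have d2 : b < n * (d + 1) := Nat.lt_mul_div_succ b (by exact_mod_cast n0)
  have st := stair hγ.le hL hS (Z := Z) (a := a) (b := b) (d := d) (x := x)
    ((x2 0).resolve_right fun ⟨z, _, _, h⟩ => by omega) x3 x2 n d1
  have st2 : (((Z + S) ∩ box a b ∩ {p | x n ≤ p.1}).ncard : ℝ) ≤ ((Z + S) ∩ box a b).ncard :=
    Nat.cast_le.mpr (ncard_le_ncard inter_subset_left ((box_fin a b).inter_of_right _))
  set m : ℝ := (((A ∩ box a b) \ Z).ncard : ℝ) with hm
  have m0 : 0 ≤ m := Nat.cast_nonneg _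
  have x4 : ∀ i, (x i : ℝ) ≤ a := fun i => by exact_mod_cast x1 i
  set v := α / γ * u with hv
  have v0 : 0 < v := by positivity
  have sm := sum_min (y := fun l => x l * d) (P := a * d) (M := m / α + L * (a + b)) (v := v)
    (n := n) (by exact_mod_cast n0) (by positivity) (by positivity) v0.le
    (fun l _ => by gcongr; exact x1 l) fun l hl => by
      have k1 : l * d ≤ b := le_trans (by gcongr) d1
      have k2 : ((A ∩ box (x l) (l * d)).ncard : ℝ) ≤ m := by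
        refine Nat.cast_le.mpr (ncard_le_ncard ?_ ((box_fin a b).inter_of_right _).diff)
        rintro p ⟨p1, p2, p3⟩
        exact ⟨⟨p1, lt_of_lt_of_le p2 (x1 l), lt_of_lt_of_le p3 k1⟩,
          fun h => not_le.mpr p2 (Nat.sInf_le (Or.inr ⟨p, h, rfl, p3⟩))⟩
      have k3 := (le_div_iff₀' hα).mpr ((hA (x l) (l * d)).trans k2)
      have k4 : (l * d : ℝ) ≤ b := by exact_mod_cast k1
      push_cast at k3
      nlinarith [mul_le_mul_of_nonneg_left (add_le_add (x4 l) k4) hL]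
  rw [Finset.sum_sub_distrib, Finset.sum_const, Finset.card_range, nsmul_eq_mul] at st
  rw [← Finset.sum_mul] at sm
  have d3 : (n * d : ℝ) ≤ b := by exact_mod_cast d1
  have d4 : (b : ℝ) ≤ n * (d + 1) := by exact_mod_cast d2.le
  have d0 : (0 : ℝ) ≤ d := Nat.cast_nonneg _
  have E0 := Real.exp_pos (-v)
  have E1 : Real.exp (-v) ≤ 1 := Real.exp_le_one_iff.mpr (by linarith)
  have nL : 0 ≤ n * L := by positivity
  have nL' : L ≤ n * L := le_mul_of_one_le_left hL n1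
  have q1 : 4 * (n + n * L) ≤ ε * b := by nlinarith
  have q2 : 4 * (n + n * L) ≤ ε * a := by nlinarith
  have q3 : 8 * d ≤ ε * b := by nlinarith
  have r1 := mul_le_mul_of_nonneg_left q1 a0
  have r2 := mul_le_mul_of_nonneg_left q2 b0
  have r3 := mul_le_mul_of_nonneg_left q3 a0
  have r4 : L * (a + b) ≤ ε * (a * b) := by nlinarith
  have r5 := mul_le_mul_of_nonneg_left r4 v0.le
  have r6 := mul_nonneg (sub_nonneg.mpr (x4 n)) (sub_nonneg.mpr d3)
  have r7 := mul_nonneg (mul_nonneg a0 (sub_nonneg.mpr E1)) (sub_nonneg.mpr d4)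
  have r8 : 0 ≤ L * x n := by positivity
  have r9 : 0 ≤ a * n * Real.exp (-v) := by positivity
  have key : a * b * (1 - Real.exp (-v) + -ε * (1 + v)) - m / α * v ≤
      (a - x n) * (b - n * d) + d * (n * a - ∑ l ∈ Finset.range n, (x l : ℝ)) - L * (a - x n) -
        n * L * b := by
    nlinarith [mul_le_mul_of_nonneg_left nL' a0, mul_nonneg b0 n0.le]
  have e : γ * (m / α * v) = u * m := by rw [hv]; field_simp
  nlinarith [mul_le_mul_of_nonneg_left key hγ.le]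

end Pool.Agent.P.MP_796fdb_co
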