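import Mathlib

set_option autoImplicit false

namespace Pool.Agent.P.MP_796fdb_co

open Set Pointwise Filter Topology

variable {G : Type*} [AddCancelCommMonoid G]

open Classical in
theorem three_fin (B U : Finset G) (Q : Set G) {l : ℝ} (hl : 0 < l) :
    ∃ U' ⊆ U, l * (l * (U \ U').card) + ((U' + B + B).filter (· ∉ Q)).card ≤
      l * ((U + B).filter (fun v => ∃ b ∈ B, v + b ∉ Q)).card := by
  set al : G → Prop := fun v => ∃ b ∈ B, v + b ∉ Q with hal
  obtain ⟨U', hU', hmin⟩ := U.powerset.exists_min_image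
    (fun Z => l * (U \ Z).card + (((Z + B).filter al).card : ℝ)) ⟨U, Finset.mem_powerset_self U⟩
  rw [Finset.mem_powerset] at hU'
  have h1 := hmin U (Finset.mem_powerset_self U)
  simp only [Finset.sdiff_self, Finset.card_empty, Nat.cast_zero, mul_zero, zero_add] at h1
  have key : ∀ B' ⊆ B, (((U' + B + B').filter (· ∉ Q)).card : ℝ) ≤
      l * ((U' + B').filter al).card := by
    intro B' hB'
    induction B' using Finset.induction_on with
    | empty => simp
    | insert b B' hb ih =>
      have hbB : b ∈ B := hB' (Finset.mem_insert_self _ _)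
      have ih' := ih ((Finset.subset_insert _ _).trans hB')
      set U'' := U'.filter (fun u => u + b ∈ U' + B' ∨ ¬ al (u + b)) with hU''
      have s1 : U'' ⊆ U' := Finset.filter_subset _ _
      have h2 := hmin U'' (Finset.mem_powerset.mpr (s1.trans hU'))
      have h3 : (U \ U'').card = (U \ U').card + (U' \ U'').card := by
        have a1 := Finset.card_sdiff_add_card_eq_card hU'
        have a2 := Finset.card_sdiff_add_card_eq_card s1
        have a3 := Finset.card_sdiff_add_card_eq_card (s1.trans hU')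
        omega
      have s2 : (U'' + B).filter al ⊆ (U' + B).filter al :=
        Finset.filter_subset_filter _ (Finset.add_subset_add_right s1)
      have h4 : (U' + B + insert b B').filter (· ∉ Q) ⊆ (U' + B + B').filter (· ∉ Q) ∪
          ((U' + B).filter al \ (U'' + B).filter al).image (· + b) := by
        intro w hw
        rw [Finset.mem_filter, Finset.mem_add] at hw
        obtain ⟨⟨v, hv, c, hc, rfl⟩, hQ⟩ := hw
        by_cases hn : v + c ∈ U' + B + B'
        · exact Finset.mem_union_left _ (Finset.mem_filter.mpr ⟨hn, hQ⟩)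
        obtain rfl : c = b := (Finset.mem_insert.mp hc).resolve_right
          fun h => hn (Finset.add_mem_add hv h)
        refine Finset.mem_union_right _ (Finset.mem_image.mpr ⟨v, Finset.mem_sdiff.mpr
          ⟨Finset.mem_filter.mpr ⟨hv, c, hbB, hQ⟩, fun h => ?_⟩, rfl⟩)
        obtain ⟨u, hu, b', hb', rfl⟩ := Finset.mem_add.mp (Finset.mem_filter.mp h).1
        rcases (Finset.mem_filter.mp hu).2 with h5 | h5
        · obtain ⟨u', hu', b'', hb'', e⟩ := Finset.mem_add.mp h5
          refine hn ?_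
          rw [add_right_comm u, ← e, add_right_comm u']
          exact Finset.add_mem_add (Finset.add_mem_add hu' hb') hb''
        · exact h5 ⟨b', hb', by rwa [add_right_comm]⟩
      have h5 : ((U' + B').filter al).card + (U' \ U'').card ≤
          ((U' + insert b B').filter al).card := by
        rw [← Finset.card_image_of_injective (U' \ U'') (add_left_injective b),
          ← Finset.card_union_of_disjoint]
        · refine Finset.card_le_card (Finset.union_subset (Finset.filter_subset_filter _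
            (Finset.add_subset_add_left (Finset.subset_insert _ _))) fun w hw => ?_)
          obtain ⟨u, hu, rfl⟩ := Finset.mem_image.mp hw
          rw [Finset.mem_sdiff, Finset.mem_filter] at hu
          exact Finset.mem_filter.mpr ⟨Finset.add_mem_add hu.1 (Finset.mem_insert_self _ _),
            not_not.mp fun h => hu.2 ⟨hu.1, Or.inr h⟩⟩
        · refine Finset.disjoint_left.mpr fun w hw hw' => ?_
          obtain ⟨u, hu, rfl⟩ := Finset.mem_image.mp hw'
          rw [Finset.mem_sdiff, Finset.mem_filter] at hu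
          exact hu.2 ⟨hu.1, Or.inl (Finset.mem_filter.mp hw).1⟩
      have h6 := (Finset.card_le_card h4).trans ((Finset.card_union_le _ _).trans
        (Nat.add_le_add_left Finset.card_image_le _))
      rw [Finset.card_sdiff_of_subset s2] at h6
      have h7 := Finset.card_le_card s2
      have h8 : (((U' + B + insert b B').filter (· ∉ Q)).card : ℝ) ≤
          ((U' + B + B').filter (· ∉ Q)).card +
            (((U' + B).filter al).card - ((U'' + B).filter al).card) := by
        rw [← Nat.cast_sub h7]; exact_mod_cast h6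
      have h9 : (((U' + B').filter al).card : ℝ) + (U' \ U'').card ≤
          ((U' + insert b B').filter al).card := by exact_mod_cast h5
      rw [h3] at h2
      push_cast at h2
      nlinarith [mul_le_mul_of_nonneg_left h9 hl.le]
  exact ⟨U', hU', by nlinarith [key B Finset.Subset.rfl, mul_le_mul_of_nonneg_left h1 hl.le]⟩

theorem three {B U : Set G} (hB : B.Finite) (hU : U.Finite) (Q : Set G) {l : ℝ} (hl : 0 < l) :
    ∃ U' ⊆ U, l * (l * (U \ U').ncard) + ((U' + B + B) \ Q).ncard ≤
      l * ((U + B) ∩ {v | ∃ b ∈ B, v + b ∉ Q}).ncard := by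
  classical
  lift B to Finset G using hB
  lift U to Finset G using hU
  obtain ⟨U', h1, h2⟩ := three_fin B U Q hl
  refine ⟨U', by exact_mod_cast h1, ?_⟩
  convert h2 using 3
  · rw [← Finset.coe_sdiff, ncard_coe_finset]
  · rw [← ncard_coe_finset]; congr 1; ext; simp [← Finset.coe_add]
  · rw [← ncard_coe_finset]; congr 1; ext; simp [← Finset.coe_add]

/-- the vertices reached at level `n` from the unblocked vertices `T (n - 1)` -/
def nxt (X B : Set G) (T : ℕ → Set G) : ℕ → Set G
  | 0 => X
  | n + 1 => T n + B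

/-- the weight of the cut described by `T` -/
noncomputable def cost (X B : Set G) (w : ℕ → ℝ) (k : ℕ) (T : ℕ → Set G) : ℝ :=
  ∑ n ∈ Finset.range (k + 1), w n * (nxt X B T n \ T n).ncard

theorem move {X B : Set G} (hX : X.Finite) (hB : B.Finite) {w : ℕ → ℝ} (hw : ∀ n, 0 < w n)
    {k i : ℕ} (hi : i + 2 ≤ k) {T : ℕ → Set G} (hT : ∀ n < k, (T n).Finite)
    (hlt : √(w i * w (i + 2)) ≤ w (i + 1)) (h : ¬ T i + B ⊆ T (i + 1)) :
    ∃ T' : ℕ → Set G, (∀ n < k, (T' n).Finite) ∧ T' k = T k ∧
      cost X B w k T' ≤ cost X B w k T - (w (i + 1) - √(w i * w (i + 2))) := by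
  have f0 := hT i (by omega)
  have f1 := hT (i + 1) (by omega)
  have p0 := hw i
  have p2 := hw (i + 2)
  obtain ⟨U, hU, hc⟩ := three hB f0 (T (i + 2) ∪ (T (i + 1) + B))
    (l := √(w i * w (i + 2)) / w (i + 2)) (by positivity)
  have fU := f0.subset hU
  let T' : ℕ → Set G := fun n => if n = i then U else if n = i + 1 then T (i + 1) ∪ (U + B) else T n
  have e0 : T' i = U := by simp [T']
  have e1 : T' (i + 1) = T (i + 1) ∪ (U + B) := by simp [T']
  have e2 : ∀ n, n ≠ i → n ≠ i + 1 → T' n = T n := fun n h1 h2 => by simp [T', h1, h2]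
  refine ⟨T', fun n hn => ?_, e2 k (by omega) (by omega), ?_⟩
  · simp only [T']
    split_ifs
    exacts [fU, f1.union (fU.add hB), hT n hn]
  have n0 : ∀ n, n ≠ i + 1 → n ≠ i + 2 → nxt X B T' n = nxt X B T n := fun n h1 h2 => by
    rcases n with _ | n
    · rfl
    · simp only [nxt]; rw [e2 n (by omega) (by omega)]
  have fN : (nxt X B T i).Finite := by
    rcases i with _ | i
    · exact hX
    · exact (hT i (by omega)).add hB
  have s3 : ({i, i + 1, i + 2} : Finset ℕ) ⊆ Finset.range (k + 1) := by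
    intro n hn; simp at hn ⊢; omega
  have e3 : cost X B w k T' - cost X B w k T = ∑ n ∈ ({i, i + 1, i + 2} : Finset ℕ),
      (w n * (nxt X B T' n \ T' n).ncard - w n * (nxt X B T n \ T n).ncard) := by
    rw [cost, cost, ← Finset.sum_sub_distrib]
    refine (Finset.sum_subset s3 fun n _ hn => ?_).symm
    simp only [Finset.mem_insert, Finset.mem_singleton, not_or] at hn
    rw [n0 n hn.2.1 hn.2.2, e2 n hn.1 hn.2.1, sub_self]
  rw [Finset.sum_insert (by simp), Finset.sum_pair (by simp), n0 i (by omega) (by omega), e0, e1,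
    e2 (i + 2) (by omega) (by omega)] at e3
  rw [nxt, nxt, nxt, nxt, e0, e1, diff_eq_empty.mpr subset_union_right] at e3
  have a0 : ((nxt X B T i \ U).ncard : ℝ) ≤ (nxt X B T i \ T i).ncard + (T i \ U).ncard := by
    exact_mod_cast (ncard_le_ncard (fun x hx => by by_cases h : x ∈ T i <;> simp [hx.1, hx.2, h])
      (fN.diff.union f0.diff)).trans (ncard_union_le _ _)
  have a2 : (((T (i + 1) ∪ (U + B) + B) \ T (i + 2)).ncard : ℝ) ≤
      ((T (i + 1) + B) \ T (i + 2)).ncard +
        ((U + B + B) \ (T (i + 2) ∪ (T (i + 1) + B))).ncard := by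
    rw [union_add]
    exact_mod_cast (ncard_le_ncard (fun x hx => by
      by_cases h : x ∈ T (i + 1) + B
      · exact Or.inl ⟨h, hx.2⟩
      · exact Or.inr ⟨hx.1.resolve_left h, fun k => k.elim hx.2 h⟩)
      ((f1.add hB).diff.union ((fU.add hB).add hB).diff)).trans (ncard_union_le _ _)
  have a1 : (((T i + B) ∩ {v | ∃ b ∈ B, v + b ∉ T (i + 2) ∪ (T (i + 1) + B)}).ncard : ℝ) ≤
      ((T i + B) \ T (i + 1)).ncard := by
    refine Nat.cast_le.mpr (ncard_le_ncard ?_ (f0.add hB).diff)
    rintro x ⟨h1, b, hb, h2⟩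
    exact ⟨h1, fun h3 => h2 (Or.inr (add_mem_add h3 hb))⟩
  have a3 : (1 : ℝ) ≤ ((T i + B) \ T (i + 1)).ncard := by
    exact_mod_cast (ncard_pos (f0.add hB).diff).mpr (diff_nonempty.mpr h)
  set s := √(w i * w (i + 2)) with hs
  have s0 : 0 ≤ s := Real.sqrt_nonneg _
  have s2 : s * s = w i * w (i + 2) := Real.mul_self_sqrt (by positivity)
  have hc' := mul_le_mul_of_nonneg_left hc p2.le
  have e4 : ∀ x y z : ℝ, w (i + 2) * (s / w (i + 2) * (s / w (i + 2) * x) + y) ≤
      w (i + 2) * (s / w (i + 2) * z) → w i * x + w (i + 2) * y ≤ s * z := fun x y z h => by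
    have : w (i + 2) * (s / w (i + 2) * (s / w (i + 2) * x) + y) = w i * x + w (i + 2) * y := by
      field_simp
      rw [sq, s2]; ring
    rwa [this, ← mul_assoc, mul_div_cancel₀ _ p2.ne'] at h
  have := e4 _ _ _ hc'
  simp only [ncard_empty, Nat.cast_zero, mul_zero] at e3
  nlinarith [mul_le_mul_of_nonneg_left a0 p0.le, mul_le_mul_of_nonneg_left a2 p2.le,
    mul_le_mul_of_nonneg_left a1 s0, mul_le_mul_of_nonneg_left a3 (sub_nonneg.mpr hlt)]

theorem cut {X B : Set G} (hX : X.Finite) (hB : B.Finite) {w : ℕ → ℝ} (hw : ∀ n, 0 < w n)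
    {k : ℕ} (hk : 0 < k) (hlt : ∀ i, i + 2 ≤ k → √(w i * w (i + 2)) < w (i + 1))
    {T₀ : ℕ → Set G} (hT₀ : ∀ n < k, (T₀ n).Finite) :
    ∃ Z ⊆ X, w 0 * (X \ Z).ncard + w k * ((Z + k • B) \ T₀ k).ncard ≤ cost X B w k T₀ := by
  obtain ⟨ε, hε, hε'⟩ : ∃ ε > 0, ∀ i, i + 2 ≤ k → ε ≤ w (i + 1) - √(w i * w (i + 2)) := by
    obtain ⟨j, -, hj⟩ := (Finset.range (k + 1)).exists_min_image
      (fun i => if i + 2 ≤ k then w (i + 1) - √(w i * w (i + 2)) else 1) ⟨0, by simp⟩
    refine ⟨_, ?_, fun i hi => (hj i (by simp; omega)).trans_eq (if_pos hi)⟩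
    split_ifs with h
    exacts [sub_pos.mpr (hlt j h), one_pos]
  have c0 : ∀ T n, 0 ≤ w n * (nxt X B T n \ T n).ncard := fun T n =>
    mul_nonneg (hw n).le (Nat.cast_nonneg _)
  let S := cost X B w k '' {T | (∀ n < k, (T n).Finite) ∧ T k = T₀ k ∧
    cost X B w k T ≤ cost X B w k T₀}
  have hb : BddBelow S := ⟨0, by
    rintro _ ⟨T, -, rfl⟩; exact Finset.sum_nonneg fun n _ => c0 T n⟩
  obtain ⟨_, ⟨T, ⟨h1, h2, h3⟩, rfl⟩, h4⟩ := exists_lt_of_csInf_lt (s := S)
    ⟨_, T₀, ⟨hT₀, rfl, le_rfl⟩, rfl⟩ (lt_add_of_pos_right _ hε)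
  have g : ∀ i, i + 2 ≤ k → T i + B ⊆ T (i + 1) := fun i hi => by
    by_contra h
    obtain ⟨T', k1, k2, k3⟩ := move hX hB hw hi h1 (hlt i hi).le h
    have := csInf_le hb ⟨T', ⟨k1, k2.trans h2, by linarith [hε' i hi]⟩, rfl⟩
    linarith [hε' i hi]
  have g2 : ∀ n < k, X ∩ T 0 + n • B ⊆ T n := fun n hn => by
    induction n with
    | zero => simpa using inter_subset_right
    | succ n ih =>
      rw [succ_nsmul, ← add_assoc]
      exact (add_subset_add_right (ih (by omega))).trans (g n (by omega))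
  obtain ⟨m, rfl⟩ : ∃ m, k = m + 1 := ⟨k - 1, by omega⟩
  refine ⟨X ∩ T 0, inter_subset_left, le_trans ?_ h3⟩
  have s2 : ({0, m + 1} : Finset ℕ) ⊆ Finset.range (m + 1 + 1) := by
    intro n hn; simp at hn ⊢; omega
  refine le_trans ?_ (Finset.sum_le_sum_of_subset_of_nonneg s2 fun n _ _ => c0 T n)
  rw [Finset.sum_pair (by simp), diff_self_inter, nxt, nxt, h2, succ_nsmul, ← add_assoc]
  gcongr
  · exact (hw _).le
  · exact ((h1 m (by omega)).add hB).diff
  · exact g2 m (by omega)

theorem finite_nsmul {B : Set G} (hB : B.Finite) (n : ℕ) : (n • B).Finite := by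
  induction n with
  | zero => rw [zero_nsmul]; exact finite_singleton 0
  | succ n ih => rw [succ_nsmul]; exact ih.add hB

theorem plun {X B : Set G} (hX : X.Finite) (hB : B.Finite) {P : ℕ → Set G}
    (hP : ∀ n, P n + B ⊆ P (n + 1)) {j k : ℕ} (hj : 0 < j) (hk : j < k) {C : ℝ} (hC : 0 < C)
    (h : ∀ Z ⊆ X, C ^ k * Z.ncard ≤ ((Z + k • B) \ P k).ncard) :
    C ^ j * X.ncard ≤ ((X + j • B) \ P j).ncard := by
  have fn : ∀ n : ℕ, (X + n • B).Finite := fun n => hX.add (finite_nsmul hB n)
  let T : ℕ → Set G := fun n => if n < j then X + n • B else if n < k then (X + n • B) ∩ P n else P k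
  have key : ∀ ρ : ℝ, 1 < ρ → C ^ j * X.ncard ≤ ρ ^ (j * (k - j)) * ((X + j • B) \ P j).ncard := by
    intro ρ hρ
    have ρ0 : 0 < ρ := by linarith
    obtain ⟨Z, hZ, h1⟩ := cut hX hB (w := fun n => C ^ (k - n) * ρ ^ (n * (k - n)))
      (fun n => by positivity) (hj.trans hk) (T₀ := T) (fun i hi => by
        obtain ⟨m, rfl⟩ : ∃ m, k = i + 2 + m := ⟨k - (i + 2), by omega⟩
        rw [Real.sqrt_lt' (by positivity), show i + 2 + m - i = m + 2 by omega,
          show i + 2 + m - (i + 2) = m by omega, show i + 2 + m - (i + 1) = m + 1 by omega]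
        calc _ = (C ^ (m + 1) * ρ ^ (i * m + i + m)) ^ 2 := by ring
          _ < _ := by
            gcongr
            nlinarith) (fun n hn => by
        simp only [T]
        split_ifs
        exacts [fn n, (fn n).inter_of_left _])
    have e : cost X B (fun n => C ^ (k - n) * ρ ^ (n * (k - n))) k T =
        C ^ (k - j) * ρ ^ (j * (k - j)) * ((X + j • B) \ P j).ncard := by
      rw [cost, Finset.sum_eq_single_of_mem j (by simp; omega)]
      · obtain ⟨m, rfl⟩ : ∃ m, j = m + 1 := ⟨j - 1, by omega⟩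
        simp only [nxt, T, lt_irrefl, if_false, hk, if_true, Nat.lt_succ_self]
        rw [add_assoc, ← succ_nsmul, diff_self_inter]
      · intro n hn hn'
        rw [Finset.mem_range] at hn
        rw [diff_eq_empty.mpr, ncard_empty, Nat.cast_zero, mul_zero]
        rcases n with _ | n
        · simp [nxt, T, hj]
        simp only [nxt, T]
        by_cases h1 : n + 1 < j
        · rw [if_pos h1, if_pos (by omega), add_assoc, succ_nsmul]
        have s1 := (add_subset_add_right (t := B) (inter_subset_right (s := X + n • B))).trans (hP n)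
        rw [if_neg h1, if_neg (by omega), if_pos (by omega)]
        split_ifs with h2
        · refine subset_inter ?_ s1
          rw [succ_nsmul, ← add_assoc]
          exact add_subset_add_right inter_subset_left
        · rwa [show k = n + 1 by omega]
    have e2 : T k = P k := by simp [T, hk.le]
    have e3 : ((X \ Z).ncard : ℝ) + Z.ncard = X.ncard := by
      exact_mod_cast ncard_diff_add_ncard_of_subset hZ hX
    rw [e, e2] at h1
    simp only [Nat.sub_zero, zero_mul, pow_zero, mul_one, Nat.sub_self, mul_zero, one_mul] at h1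
    refine le_of_mul_le_mul_left ?_ (pow_pos hC (k - j))
    rw [← mul_assoc, ← pow_add, Nat.sub_add_cancel hk.le, ← e3]
    linarith [h Z hZ]
  have : Tendsto (fun ρ : ℝ => ρ ^ (j * (k - j)) * ((X + j • B) \ P j).ncard) (𝓝[>] 1)
      (𝓝 (1 ^ (j * (k - j)) * ((X + j • B) \ P j).ncard)) :=
    tendsto_nhdsWithin_of_tendsto_nhds (Continuous.tendsto (by fun_prop) 1)
  rw [one_pow, one_mul] at this
  exact ge_of_tendsto this (eventually_nhdsWithin_of_forall key)

end Pool.Agent.P.MP_796fdb_co
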